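import Pool.Agent.Helper51.AA.VM

set_option autoImplicit false

/-!
AA, row MI: primes in `(y^(1-κ), y]`.   [helper51]
-/

open Finset Filter Topology
open scoped BigOperators

namespace Pool.Agent.Helper51.AA

open Pool.Agent.Helper40.MR Pool.Agent.Helper99.AA

theorem st_MI : ST_MI := by
  intro κ hκ hκ4
  obtain ⟨M, hM⟩ := Pool.Agent.Helper56.CP.st_M2
  -- the difference of the convergent sequence
  obtain ⟨N, hN⟩ := (Metric.tendsto_atTop.1 hM) (κ / 2) (by linarith)
  -- conditions on y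
  have hlog : Tendsto (fun y : ℕ => Real.log (y : ℝ)) atTop atTop :=
    Real.tendsto_log_atTop.comp tendsto_natCast_atTop_atTop
  have hpow : Tendsto (fun y : ℕ => (y : ℝ) ^ (1 - κ)) atTop atTop :=
    (tendsto_rpow_atTop (by linarith : (0 : ℝ) < 1 - κ)).comp tendsto_natCast_atTop_atTop
  have e1 := hlog.eventually (eventually_ge_atTop (4 * Real.log 2 / κ))
  have e2 := hpow.eventually (eventually_ge_atTop ((N : ℝ) + 4))
  obtain ⟨y₀, hy₀⟩ := eventually_atTop.1 ((e1.and e2).and (eventually_ge_atTop (N + 4)))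
  refine ⟨y₀, fun y hy => ?_⟩
  obtain ⟨⟨h1, h2⟩, h3⟩ := hy₀ y hy
  set w := ⌊(y : ℝ) ^ (1 - κ)⌋₊ with hw
  have hy1 : (1 : ℝ) < y := by
    have : 1 < y := by omega
    exact_mod_cast this
  have hy0 : (0 : ℝ) < y := by linarith
  have hp0 : 0 < (y : ℝ) ^ (1 - κ) := Real.rpow_pos_of_pos hy0 _
  have hwN : N + 4 ≤ w := by
    apply Nat.le_floor
    push_cast
    exact h2
  have hwy : w ≤ y := by
    have h4 : (w : ℝ) ≤ (y : ℝ) ^ (1 - κ) := Nat.floor_le hp0.le
    have h5 : (y : ℝ) ^ (1 - κ) ≤ (y : ℝ) ^ (1 : ℝ) :=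
      Real.rpow_le_rpow_of_exponent_le hy1.le (by linarith)
    rw [Real.rpow_one] at h5
    exact_mod_cast h4.trans h5
  have a1 := hN y (by omega)
  have a2 := hN w (by omega)
  rw [Real.dist_eq, pp_eq] at a1 a2
  have a1' := abs_lt.1 a1
  have a2' := abs_lt.1 a2
  have hsplit : ∑ p ∈ (Icc 1 y).filter Nat.Prime, 1 / (p : ℝ) =
      ∑ p ∈ (Icc 1 w).filter Nat.Prime, 1 / (p : ℝ) +
      ∑ p ∈ (Ioc w y).filter Nat.Prime, 1 / (p : ℝ) := by
    rw [← Finset.sum_union]
    · refine Finset.sum_congr ?_ fun _ _ => rfl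
      ext p
      simp only [mem_filter, mem_union, mem_Icc, mem_Ioc]
      constructor
      · rintro ⟨⟨b1, b2⟩, b3⟩
        rcases le_or_gt p w with h | h
        · exact Or.inl ⟨⟨b1, h⟩, b3⟩
        · exact Or.inr ⟨⟨h, b2⟩, b3⟩
      · rintro (⟨⟨b1, b2⟩, b3⟩ | ⟨⟨b1, b2⟩, b3⟩)
        · exact ⟨⟨b1, b2.trans hwy⟩, b3⟩
        · exact ⟨⟨by omega, b2⟩, b3⟩
    · rw [Finset.disjoint_left]
      intro p hp hq
      simp only [mem_filter, mem_Icc, mem_Ioc] at hp hq
      omega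
  -- logarithms
  have hl2 : 0 < Real.log 2 := Real.log_pos (by norm_num)
  have hly : 0 < Real.log y := Real.log_pos hy1
  have hw4 : (4 : ℝ) ≤ w := by
    have : 4 ≤ w := by omega
    exact_mod_cast this
  have hw0 : (0 : ℝ) < w := by linarith
  have hlw : 0 < Real.log w := Real.log_pos (by linarith)
  have h4 : (1 - κ - κ / 4) * Real.log y ≤ Real.log w := by
    have h5 : (y : ℝ) ^ (1 - κ) / 2 ≤ w := by
      have h6 : (y : ℝ) ^ (1 - κ) < w + 1 := Nat.lt_floor_add_one _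
      linarith
    have h6 : Real.log ((y : ℝ) ^ (1 - κ) / 2) ≤ Real.log w :=
      Real.log_le_log (by positivity) h5
    rw [Real.log_div hp0.ne' (by norm_num), Real.log_rpow hy0] at h6
    have h7 : Real.log 2 ≤ κ / 4 * Real.log y := by
      rw [div_le_iff₀ hκ] at h1
      linarith
    nlinarith
  have h5 : Real.log (Real.log y) - Real.log (Real.log w) ≤ 2 * κ := by
    rw [← Real.log_div hly.ne' hlw.ne']
    have h6 : Real.log y / Real.log w ≤ 1 / (1 - κ - κ / 4) := by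
      rw [div_le_div_iff₀ hlw (by linarith)]
      linarith
    refine (Real.log_le_sub_one_of_pos (by positivity)).trans ?_
    have h7 : 1 / (1 - κ - κ / 4) - 1 ≤ 2 * κ := by
      rw [sub_le_iff_le_add, div_le_iff₀ (by linarith)]
      nlinarith
    linarith
  linarith [a1'.1, a1'.2, a2'.1, a2'.2]

end Pool.Agent.Helper51.AA
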