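import Pool.Agent.Helper99.AA.Stmts
import Pool.Agent.Helper24.MR.PLA

set_option autoImplicit false

/-!
AA, row PLD: Plancherel for the difference of two windows.   [helper51]
-/

open MeasureTheory Set Filter Topology
open scoped ENNReal ContDiff FourierTransform

namespace Pool.Agent.Helper51.AA

open Pool.Agent.Helper40.MR Pool.Agent.Helper99.AA

/-- The multiplier of one window. -/
noncomputable def mu1 (δ t : ℝ) : ℂ :=
  (Complex.exp ((1 + (t : ℂ) * Complex.I) * δ) - 1) / (1 + (t : ℂ) * Complex.I)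

theorem mu1_sq (t : ℝ) : ‖(1 : ℂ) + (t : ℂ) * Complex.I‖ ^ 2 = 1 + t ^ 2 := by
  rw [← Complex.normSq_eq_norm_sq, Complex.normSq_apply]
  simp
  ring

theorem mu1_pos (t : ℝ) : 0 < ‖(1 : ℂ) + (t : ℂ) * Complex.I‖ := norm_pos_iff.2 (pla_c_ne t)

theorem mu1_a {δ t : ℝ} (hδ : 0 < δ) (hδ1 : δ ≤ 1) :
    ‖Complex.exp ((1 + (t : ℂ) * Complex.I) * δ) - 1‖ ≤ 4 := by
  set c : ℂ := 1 + (t : ℂ) * Complex.I with hc
  have h2 : ‖Complex.exp (c * δ)‖ ≤ 3 := by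
    rw [Complex.norm_exp]
    have : (c * (δ : ℂ)).re = δ := by
      rw [hc]; simp
    rw [this]
    calc Real.exp δ ≤ Real.exp 1 := Real.exp_le_exp.2 hδ1
      _ ≤ 3 := by have := Real.exp_one_lt_d9; linarith
  calc _ ≤ ‖Complex.exp (c * δ)‖ + ‖(1 : ℂ)‖ := norm_sub_le _ _
    _ ≤ 4 := by rw [norm_one]; linarith

theorem mu1_b {δ t : ℝ} (hδ : 0 < δ) (hδ1 : δ ≤ 1) : ‖mu1 δ t‖ ≤ 4 * δ := by
  unfold mu1
  have h1 := mu1_a (t := t) hδ hδ1
  have hcn := mu1_pos t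
  set c : ℂ := 1 + (t : ℂ) * Complex.I with hc
  rw [norm_div, div_le_iff₀ hcn]
  by_cases h : ‖c * (δ : ℂ)‖ ≤ 1
  · have := Complex.norm_exp_sub_one_le h
    rw [norm_mul, Complex.norm_real, Real.norm_of_nonneg hδ.le] at this
    nlinarith
  · rw [not_le, norm_mul, Complex.norm_real, Real.norm_of_nonneg hδ.le] at h
    nlinarith

theorem mu1_c {δ t : ℝ} (hδ : 0 < δ) (hδ1 : δ ≤ 1) :
    ‖mu1 δ t‖ * ‖(1 : ℂ) + (t : ℂ) * Complex.I‖ ≤ 4 := by
  unfold mu1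
  have hcn := mu1_pos t
  rw [norm_div, div_mul_cancel₀ _ hcn.ne']
  exact mu1_a hδ hδ1

/-- The multiplier of the difference of two windows. -/
noncomputable def mu2 (δ δ₂ t : ℝ) : ℂ := mu1 δ t - ((δ / δ₂ : ℝ) : ℂ) * mu1 δ₂ t

theorem mu2_b {δ δ₂ t : ℝ} (hδ : 0 < δ) (h12 : δ ≤ δ₂) (h2 : δ₂ ≤ 1) : ‖mu2 δ δ₂ t‖ ≤ 8 * δ := by
  have hδ₂ : 0 < δ₂ := hδ.trans_le h12
  unfold mu2
  refine (norm_sub_le _ _).trans ?_
  rw [norm_mul, Complex.norm_real, Real.norm_of_nonneg (div_nonneg hδ.le hδ₂.le)]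
  have h3 := mu1_b (t := t) hδ (h12.trans h2)
  have h4 := mul_le_mul_of_nonneg_left (mu1_b (t := t) hδ₂ h2) (div_nonneg hδ.le hδ₂.le)
  have h5 : δ / δ₂ * (4 * δ₂) = 4 * δ := by
    field_simp
  linarith

theorem mu2_c {δ δ₂ t : ℝ} (hδ : 0 < δ) (h12 : δ ≤ δ₂) (h2 : δ₂ ≤ 1) :
    ‖mu2 δ δ₂ t‖ * ‖(1 : ℂ) + (t : ℂ) * Complex.I‖ ≤ 8 := by
  have hδ₂ : 0 < δ₂ := hδ.trans_le h12
  have h5 : δ / δ₂ ≤ 1 := (div_le_one hδ₂).2 h12
  have h6 : 0 ≤ δ / δ₂ := div_nonneg hδ.le hδ₂.le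
  have h7 : ‖mu2 δ δ₂ t‖ ≤ ‖mu1 δ t‖ + ‖mu1 δ₂ t‖ := by
    unfold mu2
    refine (norm_sub_le _ _).trans ?_
    rw [norm_mul, Complex.norm_real, Real.norm_of_nonneg h6]
    have := mul_le_mul_of_nonneg_right h5 (norm_nonneg (mu1 δ₂ t))
    linarith
  have h8 := mul_le_mul_of_nonneg_right h7 (norm_nonneg ((1 : ℂ) + (t : ℂ) * Complex.I))
  have h9 := mu1_c (t := t) hδ (h12.trans h2)
  have h10 := mu1_c (t := t) hδ₂ h2
  nlinarith

theorem mu2_d {δ δ₂ t : ℝ} (hδ : 0 < δ) (h12 : δ ≤ δ₂) (h2 : δ₂ ≤ 1) :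
    ‖mu2 δ δ₂ t‖ ≤ 8 * (δ * δ₂ * ‖(1 : ℂ) + (t : ℂ) * Complex.I‖) := by
  have hδ₂ : 0 < δ₂ := hδ.trans_le h12
  have hcn := mu1_pos t
  have hc0 := pla_c_ne t
  have hb := mu2_b (t := t) hδ h12 h2
  unfold mu2 mu1 at hb ⊢
  set c : ℂ := 1 + (t : ℂ) * Complex.I with hc
  by_cases h : ‖c * (δ₂ : ℂ)‖ ≤ 1
  · have h3 : ‖c * (δ : ℂ)‖ ≤ 1 := by
      refine le_trans ?_ h
      rw [norm_mul, norm_mul, Complex.norm_real, Complex.norm_real, Real.norm_of_nonneg hδ.le,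
        Real.norm_of_nonneg hδ₂.le]
      exact mul_le_mul_of_nonneg_left h12 (norm_nonneg _)
    have h4 := Complex.norm_exp_sub_one_sub_id_le h
    have h5 := Complex.norm_exp_sub_one_sub_id_le h3
    have hδc : (δ₂ : ℂ) ≠ 0 := by exact_mod_cast hδ₂.ne'
    have h6 : (Complex.exp (c * δ) - 1) / c - ((δ / δ₂ : ℝ) : ℂ) * ((Complex.exp (c * δ₂) - 1) / c) =
        ((Complex.exp (c * δ) - 1 - c * δ) -
          ((δ / δ₂ : ℝ) : ℂ) * (Complex.exp (c * δ₂) - 1 - c * δ₂)) / c := by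
      push_cast
      field_simp
      ring
    rw [h6, norm_div, div_le_iff₀ hcn]
    refine (norm_sub_le _ _).trans ?_
    rw [norm_mul, Complex.norm_real, Real.norm_of_nonneg (div_nonneg hδ.le hδ₂.le)]
    rw [norm_mul, Complex.norm_real, Real.norm_of_nonneg hδ₂.le] at h4
    rw [norm_mul, Complex.norm_real, Real.norm_of_nonneg hδ.le] at h5
    have h7 := mul_le_mul_of_nonneg_left h4 (div_nonneg hδ.le hδ₂.le)
    have h8 : δ / δ₂ * (‖c‖ * δ₂) ^ 2 = ‖c‖ ^ 2 * (δ * δ₂) := by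
      field_simp
    have h9 : (‖c‖ * δ) ^ 2 ≤ ‖c‖ ^ 2 * (δ * δ₂) := by
      rw [mul_pow]
      refine mul_le_mul_of_nonneg_left ?_ (sq_nonneg _)
      rw [sq]
      exact mul_le_mul_of_nonneg_left h12 hδ.le
    have h10 : 0 ≤ ‖c‖ ^ 2 * (δ * δ₂) := by positivity
    nlinarith
  · rw [not_le, norm_mul, Complex.norm_real, Real.norm_of_nonneg hδ₂.le] at h
    refine hb.trans ?_
    have h3 : δ ≤ δ * δ₂ * ‖c‖ := by nlinarith
    linarith

/-- Bound for the multiplier. -/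
theorem mu2_bound {δ δ₂ t : ℝ} (hδ : 0 < δ) (h12 : δ ≤ δ₂) (h2 : δ₂ ≤ 1) :
    ‖mu2 δ δ₂ t‖ ^ 2 ≤
      64 * min (min (δ ^ 2) (1 / (1 + t ^ 2))) (δ ^ 2 * δ₂ ^ 2 * (1 + t ^ 2)) := by
  have hδ₂ : 0 < δ₂ := hδ.trans_le h12
  have hcn := mu1_pos t
  rw [mul_min_of_nonneg _ _ (by norm_num), mul_min_of_nonneg _ _ (by norm_num)]
  refine le_min (le_min ?_ ?_) ?_
  · calc _ ≤ (8 * δ) ^ 2 := pow_le_pow_left₀ (norm_nonneg _) (mu2_b hδ h12 h2) 2
      _ = 64 * δ ^ 2 := by ring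
  · have h3 := pow_le_pow_left₀ (mul_nonneg (norm_nonneg _) hcn.le) (mu2_c (t := t) hδ h12 h2) 2
    rw [mul_pow, mu1_sq] at h3
    rw [mul_one_div, le_div_iff₀ (by positivity)]
    linarith
  · have h3 := pow_le_pow_left₀ (norm_nonneg _) (mu2_d (t := t) hδ h12 h2) 2
    rw [mul_pow, mul_pow, mul_pow, mu1_sq] at h3
    linarith

theorem pld_rhs_integrable (s : Finset ℕ) (a : ℕ → ℂ) (δ δ₂ : ℝ) :
    Integrable (fun t : ℝ => ‖DP s a t‖ ^ 2 *
      min (min (δ ^ 2) (1 / (1 + t ^ 2))) (δ ^ 2 * δ₂ ^ 2 * (1 + t ^ 2))) := by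
  have h0 : ∀ t : ℝ, (0 : ℝ) < 1 + t ^ 2 := fun t => by positivity
  have hi : Integrable (fun t : ℝ => (∑ n ∈ s, ‖a n / n‖) ^ 2 * (1 + t ^ 2)⁻¹) :=
    integrable_inv_one_add_sq.const_mul _
  refine hi.mono' ?_ ?_
  · refine Continuous.aestronglyMeasurable ?_
    refine ((pla_DP_cont s a).norm.pow 2).mul ((continuous_const.min ?_).min (by fun_prop))
    exact continuous_const.div (by fun_prop) fun t => (h0 t).ne'
  · refine Eventually.of_forall fun t => ?_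
    have h1 : 0 ≤ min (min (δ ^ 2) (1 / (1 + t ^ 2))) (δ ^ 2 * δ₂ ^ 2 * (1 + t ^ 2)) :=
      le_min (le_min (sq_nonneg _) (by positivity)) (by positivity)
    rw [Real.norm_of_nonneg (by positivity)]
    refine mul_le_mul (pow_le_pow_left₀ (norm_nonneg _) (pla_DP_bound s a t) 2) ?_ h1
      (by positivity)
    rw [← one_div]
    exact (min_le_left _ _).trans (min_le_right _ _)

theorem win_eq (δ : ℝ) (s : Finset ℕ) (a : ℕ → ℂ) (u : ℝ) :
    ∑ n ∈ s, a n * pla_e δ n u = (∑ n ∈ s.filter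
      (fun n : ℕ => u < Real.log n ∧ Real.log n ≤ u + δ), a n) * Complex.exp (-(u : ℂ)) := by
  rw [Finset.sum_mul, Finset.sum_filter]
  refine Finset.sum_congr rfl fun n _ => ?_
  unfold pla_e
  split_ifs with h
  · have hmem : u ∈ Set.Ico (Real.log n - δ) (Real.log n) := ⟨by linarith [h.2], h.1⟩
    rw [Set.indicator_of_mem hmem]
  · rw [Set.indicator_of_notMem, mul_zero]
    rintro ⟨h1, h2⟩
    exact h ⟨h2, by linarith⟩

theorem win_fourier {δ : ℝ} (hδ : 0 < δ) (s : Finset ℕ) (a : ℕ → ℂ) (hs : ∀ n ∈ s, 1 ≤ n) (ξ : ℝ) :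
    𝓕 (fun u => ∑ n ∈ s, a n * pla_e δ n u) ξ = DP s a (2 * Real.pi * ξ) *
      mu1 δ (2 * Real.pi * ξ) := by
  have e : 𝓕 (fun u => ∑ n ∈ s, a n * pla_e δ n u) ξ = ∑ n ∈ s, a n * 𝓕 (pla_e δ n) ξ := by
    simp only [Real.fourier_real_eq_integral_exp_smul]
    simp only [Finset.smul_sum]
    rw [integral_finsetSum]
    · refine Finset.sum_congr rfl fun n _ => ?_
      rw [← integral_const_mul]
      refine integral_congr_ae (Eventually.of_forall fun v => ?_)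
      simp only [smul_eq_mul]
      ring
    · intro n _
      have hb : Integrable (fun v : ℝ => a n * pla_e δ n v) := (pla_e_integrable δ n).const_mul _
      have := (Real.fourierIntegral_convergent_iff (V := ℝ) (f := fun v : ℝ => a n * pla_e δ n v)
        ξ).2 hb
      refine this.congr (Eventually.of_forall fun v => ?_)
      simp only [Circle.smul_def, Real.fourierChar_apply]
      congr 2
      simp
      ring
  rw [e, DP, Finset.sum_mul]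
  refine Finset.sum_congr rfl fun n hn => ?_
  rw [pla_e_fourier hδ (hs n hn)]
  unfold mu1
  ring

theorem st_PLD : ST_PLD := by
  refine ⟨64, by norm_num, fun s δ δ₂ a hs hδ h12 hδ₂1 => ?_⟩
  have hδ₂ : 0 < δ₂ := hδ.trans_le h12
  set r : ℂ := ((δ / δ₂ : ℝ) : ℂ) with hr
  set g₁ : ℝ → ℂ := fun u => ∑ n ∈ s, a n * pla_e δ n u with hg₁
  set g₂ : ℝ → ℂ := fun u => ∑ n ∈ s, a n * pla_e δ₂ n u with hg₂
  have hi₁ : Integrable g₁ := integrable_finsetSum _ fun n _ => (pla_e_integrable δ n).const_mul _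
  have hi₂ : Integrable g₂ := integrable_finsetSum _ fun n _ => (pla_e_integrable δ₂ n).const_mul _
  have hm₁ : MemLp g₁ 2 := memLp_finsetSum _ fun n _ => (pla_e_memLp δ n).const_mul _
  have hm₂ : MemLp g₂ 2 := memLp_finsetSum _ fun n _ => (pla_e_memLp δ₂ n).const_mul _
  set g : ℝ → ℂ := fun u => g₁ u - r * g₂ u with hg
  have hgi : Integrable g := hi₁.sub (hi₂.const_mul r)
  have hg2 : MemLp g 2 := hm₁.sub (hm₂.const_mul r)
  have h1 : ∀ u : ℝ, ‖∑ n ∈ s.filter (fun n : ℕ => u < Real.log n ∧ Real.log n ≤ u + δ), a n -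
      r * ∑ n ∈ s.filter (fun n : ℕ => u < Real.log n ∧ Real.log n ≤ u + δ₂), a n‖ ^ 2 *
      Real.exp (-(2 * u)) = ‖g u‖ ^ 2 := by
    intro u
    have : g u = (∑ n ∈ s.filter (fun n : ℕ => u < Real.log n ∧ Real.log n ≤ u + δ), a n -
      r * ∑ n ∈ s.filter (fun n : ℕ => u < Real.log n ∧ Real.log n ≤ u + δ₂), a n) *
        Complex.exp (-(u : ℂ)) := by
      rw [hg]
      simp only [hg₁, hg₂]
      rw [win_eq, win_eq]
      ring
    rw [this, norm_mul, mul_pow]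
    congr 1
    rw [Complex.norm_exp, ← Real.exp_nat_mul]
    congr 1
    simp
  rw [integral_congr_ae (Eventually.of_forall h1), pla_plancherel_int g hgi hg2]
  have h2 : ∀ ξ : ℝ, 𝓕 g ξ = DP s a (2 * Real.pi * ξ) * mu2 δ δ₂ (2 * Real.pi * ξ) := by
    intro ξ
    have e : 𝓕 g ξ = 𝓕 g₁ ξ - r * 𝓕 g₂ ξ := by
      have hb1 := (Real.fourierIntegral_convergent_iff (V := ℝ) (f := g₁) ξ).2 hi₁
      have hb2 := (Real.fourierIntegral_convergent_iff (V := ℝ) (f := g₂) ξ).2 hi₂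
      simp only [Real.fourier_real_eq_integral_exp_smul, hg]
      rw [← integral_const_mul, ← integral_sub]
      · refine integral_congr_ae (Eventually.of_forall fun v => ?_)
        simp only [smul_eq_mul]
        ring
      · refine hb1.congr (Eventually.of_forall fun v => ?_)
        simp only [Circle.smul_def, Real.fourierChar_apply]
        congr 2
        simp
        ring
      · refine (hb2.const_mul r).congr (Eventually.of_forall fun v => ?_)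
        simp only [Circle.smul_def, Real.fourierChar_apply]
        congr 3
        simp
        ring
    rw [e, hg₁, hg₂, win_fourier hδ s a hs, win_fourier hδ₂ s a hs]
    unfold mu2
    ring
  have h3 : ∀ ξ : ℝ, ‖𝓕 g ξ‖ ^ 2 ≤ 64 * (fun t : ℝ => ‖DP s a t‖ ^ 2 *
      min (min (δ ^ 2) (1 / (1 + t ^ 2))) (δ ^ 2 * δ₂ ^ 2 * (1 + t ^ 2))) ((2 * Real.pi) * ξ) := by
    intro ξ
    rw [h2, norm_mul, mul_pow]
    have := mul_le_mul_of_nonneg_left (mu2_bound (t := 2 * Real.pi * ξ) hδ h12 hδ₂1)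
      (sq_nonneg ‖DP s a (2 * Real.pi * ξ)‖)
    simp only
    linarith
  have hint := pld_rhs_integrable s a δ δ₂
  have hpi : 0 < 2 * Real.pi := by positivity
  have h4 : Integrable (fun ξ : ℝ => 64 * (fun t : ℝ => ‖DP s a t‖ ^ 2 *
      min (min (δ ^ 2) (1 / (1 + t ^ 2))) (δ ^ 2 * δ₂ ^ 2 * (1 + t ^ 2))) ((2 * Real.pi) * ξ)) :=
    ((integrable_comp_mul_left_iff _ hpi.ne').2 hint).const_mul _
  have h5 : ∫ ξ, ‖𝓕 g ξ‖ ^ 2 ≤ ∫ ξ, 64 * (fun t : ℝ => ‖DP s a t‖ ^ 2 *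
      min (min (δ ^ 2) (1 / (1 + t ^ 2))) (δ ^ 2 * δ₂ ^ 2 * (1 + t ^ 2))) ((2 * Real.pi) * ξ) :=
    integral_mono_of_nonneg (Eventually.of_forall fun ξ => by positivity) h4
      (Eventually.of_forall h3)
  refine h5.trans ?_
  have hcm := Measure.integral_comp_mul_left (fun t : ℝ => ‖DP s a t‖ ^ 2 *
      min (min (δ ^ 2) (1 / (1 + t ^ 2))) (δ ^ 2 * δ₂ ^ 2 * (1 + t ^ 2))) (2 * Real.pi)
  rw [integral_const_mul, hcm]
  have h6 : 0 ≤ ∫ t : ℝ, ‖DP s a t‖ ^ 2 *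
      min (min (δ ^ 2) (1 / (1 + t ^ 2))) (δ ^ 2 * δ₂ ^ 2 * (1 + t ^ 2)) := by
    refine integral_nonneg fun t => ?_
    have h1 : 0 ≤ min (min (δ ^ 2) (1 / (1 + t ^ 2))) (δ ^ 2 * δ₂ ^ 2 * (1 + t ^ 2)) :=
      le_min (le_min (sq_nonneg _) (by positivity)) (by positivity)
    simp only [Pi.zero_apply]
    positivity
  have h7 : |(2 * Real.pi)⁻¹| ≤ 1 := by
    rw [abs_of_pos (inv_pos.2 hpi)]
    apply inv_le_one_of_one_le₀
    have := Real.pi_gt_three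
    linarith
  rw [smul_eq_mul]
  nlinarith

end Pool.Agent.Helper51.AA
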