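import Pool.Agent.Helper99.AA.Stmts

set_option autoImplicit false

/-!
AA, row SI: Selberg's identity, summed.   [helper51]
-/

open Finset
open scoped BigOperators

namespace Pool.Agent.Helper51.AA

open Pool.Agent.Helper40.MR Pool.Agent.Helper99.AA
open ArithmeticFunction (vonMangoldt log)
open scoped ArithmeticFunction.vonMangoldt ArithmeticFunction.Moebius ArithmeticFunction.zeta

/-- Multiplication by `log` is a derivation. -/
theorem pmul_log_mul (f g : ArithmeticFunction ℝ) :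
    log.pmul (f * g) = (log.pmul f) * g + f * (log.pmul g) := by
  ext n
  rw [ArithmeticFunction.pmul_apply, ArithmeticFunction.add_apply, ArithmeticFunction.mul_apply,
    ArithmeticFunction.mul_apply, ArithmeticFunction.mul_apply, Finset.mul_sum,
    ← Finset.sum_add_distrib]
  refine Finset.sum_congr rfl fun p hp => ?_
  obtain ⟨h1, h2⟩ := Nat.mem_divisorsAntidiagonal.1 hp
  have h3 : p.1 ≠ 0 := fun h => h2 (by rw [← h1, h, zero_mul])
  have h4 : p.2 ≠ 0 := fun h => h2 (by rw [← h1, h, mul_zero])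
  have h5 : Real.log n = Real.log p.1 + Real.log p.2 := by
    rw [← h1, Nat.cast_mul, Real.log_mul (Nat.cast_ne_zero.2 h3) (Nat.cast_ne_zero.2 h4)]
  rw [ArithmeticFunction.pmul_apply, ArithmeticFunction.pmul_apply, ArithmeticFunction.log_apply,
    ArithmeticFunction.log_apply, ArithmeticFunction.log_apply, h5]
  ring

/-- Selberg's identity. -/
theorem selberg : log.pmul Λ + Λ * Λ = (μ : ArithmeticFunction ℝ) * log.pmul log := by
  have h1 : log.pmul log = (log.pmul Λ + Λ * Λ) * (ζ : ArithmeticFunction ℝ) := by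
    have h2 : log.pmul (ζ : ArithmeticFunction ℝ) = log := ArithmeticFunction.pmul_zeta _
    calc log.pmul log = log.pmul (Λ * (ζ : ArithmeticFunction ℝ)) := by
          rw [ArithmeticFunction.vonMangoldt_mul_zeta]
      _ = (log.pmul Λ) * (ζ : ArithmeticFunction ℝ) + Λ * log := by rw [pmul_log_mul, h2]
      _ = (log.pmul Λ) * (ζ : ArithmeticFunction ℝ) + Λ * (Λ * (ζ : ArithmeticFunction ℝ)) := by
          rw [ArithmeticFunction.vonMangoldt_mul_zeta]
      _ = _ := by ring
  rw [h1, mul_comm (μ : ArithmeticFunction ℝ), mul_assoc,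
    ArithmeticFunction.coe_zeta_mul_coe_moebius, mul_one]

/-- Twist of a real arithmetic function. -/
noncomputable def tw (g : ℕ → ℂ) (f : ArithmeticFunction ℝ) : ArithmeticFunction ℂ :=
  ⟨fun n => g n * ((f n : ℝ) : ℂ), by simp⟩

theorem tw_apply (g : ℕ → ℂ) (f : ArithmeticFunction ℝ) (n : ℕ) :
    tw g f n = g n * ((f n : ℝ) : ℂ) := rfl

theorem tw_mul {g : ℕ → ℂ} (hg : ∀ m n, m ≠ 0 → n ≠ 0 → g (m * n) = g m * g n)
    (f h : ArithmeticFunction ℝ) : tw g (f * h) = tw g f * tw g h := by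
  ext n
  rw [ArithmeticFunction.mul_apply, tw_apply, ArithmeticFunction.mul_apply]
  push_cast
  rw [Finset.mul_sum]
  refine Finset.sum_congr rfl fun p hp => ?_
  obtain ⟨h1, h2⟩ := Nat.mem_divisorsAntidiagonal.1 hp
  have h3 : p.1 ≠ 0 := fun h => h2 (by rw [← h1, h, zero_mul])
  have h4 : p.2 ≠ 0 := fun h => h2 (by rw [← h1, h, mul_zero])
  rw [tw_apply, tw_apply, ← h1, hg _ _ h3 h4]
  ring

theorem tw_add (g : ℕ → ℂ) (f h : ArithmeticFunction ℝ) : tw g (f + h) = tw g f + tw g h := by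
  ext n
  rw [ArithmeticFunction.add_apply, tw_apply, tw_apply, tw_apply, ArithmeticFunction.add_apply]
  push_cast
  ring

theorem Ro_mul (y m n : ℕ) : Ro y (m * n) ↔ Ro y m ∧ Ro y n := by
  unfold Ro
  constructor
  · intro h
    exact ⟨fun p hp hm => h p hp (Dvd.dvd.mul_right hm n), fun p hp hn => h p hp (Dvd.dvd.mul_left hn m)⟩
  · rintro ⟨h1, h2⟩ p hp hd
    rcases (Nat.Prime.dvd_mul hp).1 hd with h | h
    · exact h1 p hp h
    · exact h2 p hp h

theorem ro_mul (y m n : ℕ) : ro y (m * n) = ro y m * ro y n := by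
  classical
  unfold ro
  by_cases h1 : Ro y m <;> by_cases h2 : Ro y n <;> simp [Ro_mul, h1, h2]

theorem nit_mul (m n : ℕ) (t : ℝ) (hm : m ≠ 0) (hn : n ≠ 0) : nit (m * n) t = nit m t * nit n t := by
  unfold nit
  rw [← Complex.exp_add]
  congr 1
  rw [Nat.cast_mul, Real.log_mul (Nat.cast_ne_zero.2 hm) (Nat.cast_ne_zero.2 hn)]
  push_cast
  ring

theorem norm_nit (n : ℕ) (t : ℝ) : ‖nit n t‖ = 1 := by
  unfold nit
  rw [← Complex.ofReal_neg]
  exact Complex.norm_exp_ofReal_mul_I _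

theorem norm_ro_le (y n : ℕ) : ‖ro y n‖ ≤ 1 := by
  classical
  unfold ro
  split_ifs <;> simp

theorem norm_rt (y : ℕ) (t : ℝ) (n : ℕ) : ‖rt y t n‖ = ‖ro y n‖ := by
  unfold rt
  rw [norm_mul, norm_nit, mul_one]

theorem rt_mul (y : ℕ) (t : ℝ) (m n : ℕ) (hm : m ≠ 0) (hn : n ≠ 0) :
    rt y t (m * n) = rt y t m * rt y t n := by
  unfold rt
  rw [ro_mul, nit_mul m n t hm hn]
  ring

theorem Icc_eq (N : ℕ) : Icc 1 N = Ioc 0 N := by
  ext n
  simp only [mem_Icc, mem_Ioc]
  omega

theorem floor_div' (x : ℝ) (d : ℕ) : ⌊x / d⌋₊ = ⌊x⌋₊ / d := Nat.floor_div_natCast x d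

/-- The tail: `∑_{n ≤ x} Λ(n) log (x / n) ≤ 6 x`. -/
theorem tail (x : ℝ) (hx : 1 ≤ x) :
    ∑ n ∈ Icc 1 ⌊x⌋₊, Λ n * (Real.log x - Real.log n) ≤ 6 * x := by
  have hx0 : 0 < x := by linarith
  set N := ⌊x⌋₊ with hN
  have hxN : x < N + 1 := Nat.lt_floor_add_one x
  have hNx : (N : ℝ) ≤ x := Nat.floor_le hx0.le
  have key : ∀ k n : ℕ, 1 ≤ n → n ≤ k + 1 →
      Real.log ((k + 1 : ℕ) : ℝ) - Real.log n ≤ ∑ j ∈ Icc n k, 1 / (j : ℝ) := by
    intro k
    induction k with
    | zero =>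
        intro n h1 h2
        have h3 : n = 1 := by omega
        subst h3
        simp
    | succ k ih =>
        intro n h1 h2
        rcases Nat.lt_or_ge n (k + 2) with h3 | h3
        · have h4 := ih n h1 (by omega)
          have h5 : Icc n (k + 1) = insert (k + 1) (Icc n k) := by
            ext j
            simp only [mem_Icc, mem_insert]
            omega
          rw [h5, Finset.sum_insert (by simp)]
          have h6 : Real.log ((k + 1 + 1 : ℕ) : ℝ) - Real.log ((k + 1 : ℕ) : ℝ) ≤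
              1 / ((k + 1 : ℕ) : ℝ) := by
            have h7 : (0 : ℝ) < ((k + 1 : ℕ) : ℝ) := by positivity
            have h8 : (0 : ℝ) < ((k + 1 + 1 : ℕ) : ℝ) := by positivity
            rw [← Real.log_div h8.ne' h7.ne']
            refine (Real.log_le_sub_one_of_pos (by positivity)).trans (le_of_eq ?_)
            push_cast
            field_simp
            ring
          linarith
        · have h4 : n = k + 2 := by omega
          subst h4
          have h5 : Icc (k + 2) (k + 1) = ∅ := by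
            rw [Finset.Icc_eq_empty]
            omega
          rw [h5]
          have h6 : ((k + 1 + 1 : ℕ) : ℝ) = ((k + 2 : ℕ) : ℝ) := by
            push_cast
            ring
          rw [h6, sub_self, Finset.sum_empty]
  have h1 : ∀ n ∈ Icc 1 N, Λ n * (Real.log x - Real.log n) ≤
      ∑ j ∈ Icc 1 N, if n ≤ j then Λ n * (1 / (j : ℝ)) else 0 := by
    intro n hn
    obtain ⟨hn1, hn2⟩ := mem_Icc.1 hn
    have h2 := key N n hn1 (by omega)
    have h3 : Real.log x ≤ Real.log ((N + 1 : ℕ) : ℝ) := by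
      refine Real.log_le_log hx0 ?_
      push_cast
      exact hxN.le
    have h4 : ∑ j ∈ Icc 1 N, (if n ≤ j then Λ n * (1 / (j : ℝ)) else 0) =
        Λ n * ∑ j ∈ Icc n N, 1 / (j : ℝ) := by
      rw [← Finset.sum_filter, Finset.mul_sum]
      refine Finset.sum_congr ?_ fun _ _ => rfl
      ext j
      simp only [mem_filter, mem_Icc]
      omega
    rw [h4]
    exact mul_le_mul_of_nonneg_left (by linarith) ArithmeticFunction.vonMangoldt_nonneg
  refine (Finset.sum_le_sum h1).trans ?_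
  rw [Finset.sum_comm]
  have h5 : ∀ j ∈ Icc 1 N, ∑ n ∈ Icc 1 N, (if n ≤ j then Λ n * (1 / (j : ℝ)) else 0) ≤ 6 := by
    intro j hj
    obtain ⟨hj1, hj2⟩ := mem_Icc.1 hj
    have hj0 : (0 : ℝ) < j := by exact_mod_cast hj1
    have h6 : ∑ n ∈ Icc 1 N, (if n ≤ j then Λ n * (1 / (j : ℝ)) else 0) =
        (∑ n ∈ Icc 1 j, Λ n) * (1 / (j : ℝ)) := by
      rw [← Finset.sum_filter, Finset.sum_mul]
      refine Finset.sum_congr ?_ fun _ _ => rfl
      ext n
      simp only [mem_filter, mem_Icc]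
      omega
    have h7 : ∑ n ∈ Icc 1 j, Λ n ≤ (Real.log 4 + 4) * j := by
      have h := Chebyshev.psi_le_const_mul_self hj0.le
      unfold Chebyshev.psi at h
      rw [Nat.floor_natCast] at h
      rw [Icc_eq]
      exact h
    have h8 : Real.log 4 ≤ 2 := by
      have : Real.log 4 = 2 * Real.log 2 := by
        rw [show (4 : ℝ) = 2 ^ 2 by norm_num, Real.log_pow]
        push_cast
        ring
      have := Real.log_two_lt_d9
      linarith
    rw [h6, mul_one_div, div_le_iff₀ hj0]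
    nlinarith
  refine (Finset.sum_le_sum h5).trans ?_
  rw [Finset.sum_const, Nat.card_Icc, nsmul_eq_mul]
  simp only [Nat.add_sub_cancel]
  linarith

theorem st_SI : ST_SI := by
  intro y x t hy hx
  have hx0 : 0 < x := by linarith
  set N := ⌊x⌋₊ with hN
  set g : ℕ → ℂ := rt y t with hg
  have hmul : ∀ m n, m ≠ 0 → n ≠ 0 → g (m * n) = g m * g n := rt_mul y t
  -- the summed identity
  have hid : tw g (log.pmul Λ) + tw g Λ * tw g Λ =
      tw g (μ : ArithmeticFunction ℝ) * tw g (log.pmul log) := by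
    rw [← tw_mul hmul, ← tw_add, selberg, tw_mul hmul]
  have hsum : ∑ n ∈ Ioc 0 N, tw g (log.pmul Λ) n +
      ∑ d ∈ Ioc 0 N, tw g Λ d * ∑ m ∈ Ioc 0 (N / d), tw g Λ m =
      ∑ d ∈ Ioc 0 N, tw g (μ : ArithmeticFunction ℝ) d *
        ∑ m ∈ Ioc 0 (N / d), tw g (log.pmul log) m := by
    rw [← ArithmeticFunction.sum_Ioc_mul_eq_sum_sum, ← ArithmeticFunction.sum_Ioc_mul_eq_sum_sum,
      ← hid, ← Finset.sum_add_distrib]
    rfl
  have hSv : ∀ d : ℕ, ∑ m ∈ Ioc 0 (N / d), tw g Λ m = Sv y t (x / d) := by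
    intro d
    unfold Sv Sg
    rw [floor_div', Icc_eq]
    rfl
  have hPh : ∀ d : ℕ, ∑ m ∈ Ioc 0 (N / d), tw g (log.pmul log) m = Ph 2 y (x / d) t := by
    intro d
    unfold Ph Sg
    rw [floor_div', Icc_eq]
    refine Finset.sum_congr rfl fun m _ => ?_
    rw [tw_apply, ArithmeticFunction.pmul_apply, ArithmeticFunction.log_apply]
    push_cast
    ring
  simp only [hSv, hPh] at hsum
  -- splitting `log x`
  have hsplit : (Real.log x : ℂ) * Sv y t x = ∑ n ∈ Ioc 0 N, tw g (log.pmul Λ) n +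
      ∑ n ∈ Ioc 0 N, g n * ((Λ n * (Real.log x - Real.log n) : ℝ) : ℂ) := by
    unfold Sv Sg
    rw [Icc_eq, Finset.mul_sum, ← Finset.sum_add_distrib]
    refine Finset.sum_congr rfl fun n _ => ?_
    rw [tw_apply, ArithmeticFunction.pmul_apply, ArithmeticFunction.log_apply]
    unfold rL
    push_cast
    ring
  have hgn : ∀ n, ‖g n‖ ≤ 1 := fun n => by rw [hg, norm_rt]; exact norm_ro_le y n
  have hn1 : ‖∑ n ∈ Ioc 0 N, g n * ((Λ n * (Real.log x - Real.log n) : ℝ) : ℂ)‖ ≤ 6 * x := by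
    refine (norm_sum_le _ _).trans ((Finset.sum_le_sum fun n hn => ?_).trans
      ((le_of_eq (by rw [Icc_eq])).trans (tail x hx)))
    rw [norm_mul, Complex.norm_real, Real.norm_eq_abs]
    obtain ⟨h1, h2⟩ := mem_Ioc.1 hn
    have h3 : (n : ℝ) ≤ x := (Nat.cast_le.2 h2).trans (Nat.floor_le hx0.le)
    have h4 : Real.log n ≤ Real.log x := Real.log_le_log (by exact_mod_cast h1) h3
    have h5 : 0 ≤ Λ n * (Real.log x - Real.log n) :=
      mul_nonneg ArithmeticFunction.vonMangoldt_nonneg (by linarith)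
    rw [abs_of_nonneg h5]
    exact mul_le_of_le_one_left h5 (hgn n)
  have hA : ‖∑ n ∈ Ioc 0 N, tw g (log.pmul Λ) n‖ ≤
      ∑ d ∈ Ioc 0 N, Λ d * ‖Sv y t (x / d)‖ + ∑ d ∈ Ioc 0 N, ‖ro y d‖ * ‖Ph 2 y (x / d) t‖ := by
    rw [eq_sub_of_add_eq hsum]
    refine (norm_sub_le _ _).trans ?_
    rw [add_comm]
    refine add_le_add ?_ ?_
    · refine (norm_sum_le _ _).trans (Finset.sum_le_sum fun d _ => ?_)
      rw [norm_mul, tw_apply, norm_mul, Complex.norm_real, Real.norm_eq_abs,
        abs_of_nonneg ArithmeticFunction.vonMangoldt_nonneg]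
      refine mul_le_mul_of_nonneg_right ?_ (norm_nonneg _)
      exact mul_le_of_le_one_left ArithmeticFunction.vonMangoldt_nonneg (hgn d)
    · refine (norm_sum_le _ _).trans (Finset.sum_le_sum fun d _ => ?_)
      rw [norm_mul, tw_apply, norm_mul, Complex.norm_real, Real.norm_eq_abs]
      refine mul_le_mul_of_nonneg_right ?_ (norm_nonneg _)
      rw [hg, norm_rt]
      have h1 : |(μ : ArithmeticFunction ℝ) d| ≤ 1 := by
        rw [ArithmeticFunction.intCoe_apply]
        exact_mod_cast ArithmeticFunction.abs_moebius_le_one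
      exact mul_le_of_le_one_right (norm_nonneg _) h1
  have hlog : 0 ≤ Real.log x := Real.log_nonneg hx
  calc Real.log x * ‖Sv y t x‖ = ‖(Real.log x : ℂ) * Sv y t x‖ := by
        rw [norm_mul, Complex.norm_real, Real.norm_of_nonneg hlog]
    _ ≤ _ := by
        rw [hsplit, Icc_eq]
        exact (norm_add_le _ _).trans (add_le_add hA hn1)

end Pool.Agent.Helper51.AA
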