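import Pool.Agent.Helper99.AA.Stmts
import Pool.Agent.Helper24.MR.PLA
import Pool.Agent.Helper78.MR.MV

set_option autoImplicit false

/-!
AA, row V3: the tail range.   [helper51]
-/

open Finset Filter Topology MeasureTheory
open scoped BigOperators

namespace Pool.Agent.Helper51.AA

open Pool.Agent.Helper40.MR Pool.Agent.Helper99.AA

theorem poly_cont (N : ℕ) (c : ℕ → ℂ) : Continuous (fun t : ℝ => ∑ n ∈ Icc 1 N, c n * nit n t) :=
  continuous_finsetSum _ fun n _ => continuous_const.mul (pla_nit_cont n)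

theorem poly_bound (N : ℕ) (c : ℕ → ℂ) (t : ℝ) :
    ‖∑ n ∈ Icc 1 N, c n * nit n t‖ ≤ ∑ n ∈ Icc 1 N, ‖c n‖ := by
  refine (norm_sum_le _ _).trans (Finset.sum_le_sum fun n _ => ?_)
  rw [norm_mul, pla_nit_norm, mul_one]

theorem poly_integrable (N : ℕ) (c : ℕ → ℂ) :
    Integrable (fun t : ℝ => ‖∑ n ∈ Icc 1 N, c n * nit n t‖ ^ 2 * (1 / (1 + t ^ 2))) := by
  have h0 : ∀ t : ℝ, (0 : ℝ) < 1 + t ^ 2 := fun t => by positivity
  have hi : Integrable (fun t : ℝ => (∑ n ∈ Icc 1 N, ‖c n‖) ^ 2 * (1 + t ^ 2)⁻¹) :=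
    integrable_inv_one_add_sq.const_mul _
  refine hi.mono' ?_ ?_
  · refine Continuous.aestronglyMeasurable ?_
    refine ((poly_cont N c).norm.pow 2).mul ?_
    exact continuous_const.div (by fun_prop) fun t => (h0 t).ne'
  · refine Eventually.of_forall fun t => ?_
    rw [Real.norm_of_nonneg (by positivity), ← one_div]
    exact mul_le_mul_of_nonneg_right (pow_le_pow_left₀ (norm_nonneg _) (poly_bound N c t) 2)
      (by positivity)

/-- The tail of a mean square with the weight `1 / (1 + t^2)`. -/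
theorem tail_ms {C : ℝ} (hC0 : 0 < C) (hC : ∀ (N : ℕ) (T : ℝ) (c : ℕ → ℂ), 1 ≤ T →
    ∫ t in (-T)..T, ‖∑ n ∈ Icc 1 N, c n * nit n t‖ ^ 2 ≤ C * (T + N) * ∑ n ∈ Icc 1 N, ‖c n‖ ^ 2)
    (N : ℕ) (T : ℝ) (hT : 1 ≤ T) (c : ℕ → ℂ) :
    ∫ t in {t : ℝ | T < |t|}, ‖∑ n ∈ Icc 1 N, c n * nit n t‖ ^ 2 * (1 / (1 + t ^ 2)) ≤
      C * (∑ n ∈ Icc 1 N, ‖c n‖ ^ 2) * (4 / T + 2 * N / T ^ 2) := by
  have hT0 : 0 < T := by linarith
  set S := ∑ n ∈ Icc 1 N, ‖c n‖ ^ 2 with hS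
  have hS0 : 0 ≤ S := Finset.sum_nonneg fun n _ => sq_nonneg _
  set f : ℝ → ℝ := fun t => ‖∑ n ∈ Icc 1 N, c n * nit n t‖ ^ 2 with hf
  have hfc : Continuous f := (poly_cont N c).norm.pow 2
  have hf0 : ∀ t, 0 ≤ f t := fun t => sq_nonneg _
  have hi : Integrable (fun t : ℝ => f t * (1 / (1 + t ^ 2))) := poly_integrable N c
  set s : ℕ → Set ℝ := fun k => {t : ℝ | 2 ^ k * T ≤ |t| ∧ |t| < 2 ^ (k + 1) * T} with hs
  have hsm : ∀ k, MeasurableSet (s k) := by
    intro k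
    have h1 : MeasurableSet {t : ℝ | 2 ^ k * T ≤ |t|} :=
      measurableSet_le measurable_const continuous_abs.measurable
    have h2 : MeasurableSet {t : ℝ | |t| < 2 ^ (k + 1) * T} :=
      measurableSet_lt continuous_abs.measurable measurable_const
    exact h1.inter h2
  have hsd : Pairwise (Function.onFun Disjoint s) := by
    have key : ∀ i j : ℕ, i < j → Disjoint (s i) (s j) := by
      intro i j hij
      rw [Set.disjoint_left]
      rintro t ⟨_, h2⟩ ⟨h3, _⟩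
      have h4 : (2 : ℝ) ^ (i + 1) * T ≤ 2 ^ j * T :=
        mul_le_mul_of_nonneg_right (pow_le_pow_right₀ (by norm_num) (by omega)) hT0.le
      linarith
    intro i j hij
    rcases lt_or_gt_of_ne hij with h | h
    · exact key i j h
    · exact (key j i h).symm
  have hsum := hasSum_integral_iUnion hsm hsd hi.integrableOn
  have hsub : {t : ℝ | T < |t|} ⊆ ⋃ k, s k := by
    intro t ht
    have h1 : 1 ≤ |t| / T := by
      rw [le_div_iff₀ hT0, one_mul]
      exact le_of_lt ht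
    obtain ⟨k, hk1, hk2⟩ := exists_nat_pow_near h1 (by norm_num : (1 : ℝ) < 2)
    rw [le_div_iff₀ hT0] at hk1
    rw [div_lt_iff₀ hT0] at hk2
    exact Set.mem_iUnion.2 ⟨k, hk1, hk2⟩
  have h1 : ∫ t in {t : ℝ | T < |t|}, f t * (1 / (1 + t ^ 2)) ≤
      ∫ t in ⋃ k, s k, f t * (1 / (1 + t ^ 2)) := by
    refine setIntegral_mono_set hi.integrableOn ?_ (LE.le.eventuallyLE hsub)
    exact Eventually.of_forall fun t => mul_nonneg (hf0 t) (by positivity)
  refine h1.trans ?_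
  have hb : ∀ k, ∫ t in s k, f t * (1 / (1 + t ^ 2)) ≤
      C * S * (2 / T) * (1 / 2) ^ k + C * S * (N / T ^ 2) * (1 / 4) ^ k := by
    intro k
    have hk0 : (0 : ℝ) < 2 ^ k := by positivity
    have hk1 : (1 : ℝ) ≤ 2 ^ (k + 1) := one_le_pow₀ (by norm_num)
    have a1 : ∫ t in s k, f t * (1 / (1 + t ^ 2)) ≤ ∫ t in s k, f t * (1 / (2 ^ k * T) ^ 2) := by
      refine setIntegral_mono_on hi.integrableOn ?_ (hsm k) fun t ht => ?_
      · have h2 : IntegrableOn (fun t => f t * (1 / (2 ^ k * T) ^ 2))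
            (Set.Icc (-(2 ^ (k + 1) * T)) (2 ^ (k + 1) * T)) :=
          (hfc.mul continuous_const).integrableOn_Icc
        refine h2.mono_set fun t ht => ?_
        exact abs_le.1 ht.2.le
      · refine mul_le_mul_of_nonneg_left ?_ (hf0 t)
        refine one_div_le_one_div_of_le (by positivity) ?_
        have h3 := pow_le_pow_left₀ (by positivity) ht.1 2
        rw [sq_abs] at h3
        linarith
    have a2 : ∫ t in s k, f t * (1 / (2 ^ k * T) ^ 2) ≤
        (∫ t in (-(2 ^ (k + 1) * T))..(2 ^ (k + 1) * T), f t) * (1 / (2 ^ k * T) ^ 2) := by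
      rw [integral_mul_const]
      refine mul_le_mul_of_nonneg_right ?_ (by positivity)
      have h4 : -(2 ^ (k + 1) * T) ≤ 2 ^ (k + 1) * T := by
        have : 0 ≤ 2 ^ (k + 1) * T := by positivity
        linarith
      rw [intervalIntegral.integral_of_le h4, ← integral_Icc_eq_integral_Ioc]
      refine setIntegral_mono_set hfc.integrableOn_Icc (Eventually.of_forall hf0) ?_
      exact LE.le.eventuallyLE fun t ht => abs_le.1 ht.2.le
    have a3 := hC N (2 ^ (k + 1) * T) c (by nlinarith)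
    have a4 := mul_le_mul_of_nonneg_right a3 (by positivity : 0 ≤ 1 / (2 ^ k * T) ^ 2)
    refine a1.trans (a2.trans (a4.trans (le_of_eq ?_)))
    rw [← hS]
    have h5 : (4 : ℝ) ^ k = 2 ^ k * 2 ^ k := by
      rw [← mul_pow]
      norm_num
    rw [one_div_pow, one_div_pow, h5, pow_succ]
    field_simp
  have g2 : HasSum (fun k : ℕ => ((1 : ℝ) / 2) ^ k) 2 := hasSum_geometric_two
  have g4 : HasSum (fun k : ℕ => ((1 : ℝ) / 4) ^ k) (4 / 3) := by
    have h := hasSum_geometric_of_lt_one (by norm_num : (0 : ℝ) ≤ 1 / 4) (by norm_num)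
    have h' : (1 - (1 : ℝ) / 4)⁻¹ = 4 / 3 := by norm_num
    rw [h'] at h
    exact h
  have hsb := (g2.mul_left (C * S * (2 / T))).add (g4.mul_left (C * S * (N / T ^ 2)))
  have h2 := hasSum_le hb hsum hsb
  refine h2.trans ?_
  have h3 : 0 ≤ C * S * (N / T ^ 2) := by positivity
  have h4 : C * S * (4 / T + 2 * N / T ^ 2) = C * S * (2 / T) * 2 + C * S * (N / T ^ 2) * 2 := by
    ring
  rw [h4]
  nlinarith

theorem co_norm_le (η M : ℝ) (n : ℕ) : ‖co η M n‖ ≤ 2 := by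
  classical
  unfold co
  rw [Complex.norm_natCast]
  have h1 : ((Pa η M ×ˢ Qa η M).filter (fun r : ℕ × ℕ => r.1 * r.2 = n)).card ≤ 2 := by
    rcases Finset.eq_empty_or_nonempty
      ((Pa η M ×ˢ Qa η M).filter (fun r : ℕ × ℕ => r.1 * r.2 = n)) with h | ⟨⟨p, q⟩, hr⟩
    · rw [h]
      simp
    · rw [mem_filter, mem_product] at hr
      obtain ⟨⟨hp, hq⟩, hpq⟩ := hr
      have hpp : p.Prime := (mem_filter.1 hp).2
      have hqp : q.Prime := (mem_filter.1 hq).2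
      refine (Finset.card_le_card (t := {(p, q), (q, p)}) ?_).trans Finset.card_le_two
      rintro ⟨p', q'⟩ hr'
      rw [mem_filter, mem_product] at hr'
      obtain ⟨⟨hp', hq'⟩, hpq'⟩ := hr'
      have hpp' : p'.Prime := (mem_filter.1 hp').2
      simp only at hpq hpq' hp' hq'
      have h2 : p' ∣ p * q := by
        rw [hpq, ← hpq']
        exact dvd_mul_right _ _
      rw [mem_insert, mem_singleton]
      rcases (Nat.Prime.dvd_mul hpp').1 h2 with h | h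
      · have h3 : p' = p := (Nat.prime_dvd_prime_iff_eq hpp' hpp).1 h
        left
        subst h3
        have h4 : p' * q' = p' * q := by rw [hpq, hpq']
        rw [Nat.eq_of_mul_eq_mul_left hpp'.pos h4]
      · have h3 : p' = q := (Nat.prime_dvd_prime_iff_eq hpp' hqp).1 h
        right
        subst h3
        have h4 : p' * q' = p' * p := by rw [hpq', ← hpq, mul_comm]
        rw [Nat.eq_of_mul_eq_mul_left hpp'.pos h4]
  exact_mod_cast h1

theorem co_eq_zero {η M : ℝ} (hη : 0 < η) (hη1 : η ≤ 1 / 10) (hM : 2 ≤ M) {n : ℕ}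
    (hn : (n : ℝ) < M ^ 2 / 2) : co η M n = 0 := by
  classical
  unfold co
  rw [Nat.cast_eq_zero, Finset.card_eq_zero, Finset.filter_eq_empty_iff]
  rintro ⟨p, q⟩ hr hpq
  rw [mem_product] at hr
  obtain ⟨hp, hq⟩ := hr
  simp only at hpq hp hq
  unfold Pa PrI IocN at hp
  unfold Qa PrI IocN at hq
  rw [mem_filter, mem_Ioc] at hp hq
  have h1 : M * (1 + η) < p := Nat.lt_of_floor_lt hp.1.1
  have h2 : M * (1 - 3 * η) < q := Nat.lt_of_floor_lt hq.1.1
  have h3 : M ≤ M * (1 + η) := by nlinarith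
  have h4 : M * (7 / 10) ≤ M * (1 - 3 * η) := by nlinarith
  have h5 : (p : ℝ) * q = n := by exact_mod_cast hpq
  have h6 : M * (M * (7 / 10)) < p * q := by
    have h7 : (0 : ℝ) < M * (7 / 10) := by positivity
    nlinarith
  nlinarith

theorem co_sum {η M : ℝ} (hη : 0 < η) (hη1 : η ≤ 1 / 10) (hM : 2 ≤ M) :
    ∑ n ∈ Icc 1 ⌊4 * M ^ 2⌋₊, ‖co η M n / n‖ ^ 2 ≤ 64 / M ^ 2 := by
  have hM0 : 0 < M := by linarith
  have h1 : ∀ n ∈ Icc 1 ⌊4 * M ^ 2⌋₊, ‖co η M n / n‖ ^ 2 ≤ 16 / M ^ 4 := by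
    intro n hn
    have hn1 : (1 : ℝ) ≤ n := by exact_mod_cast (mem_Icc.1 hn).1
    rcases lt_or_ge (n : ℝ) (M ^ 2 / 2) with h | h
    · rw [co_eq_zero hη hη1 hM h]
      simp
      positivity
    · rw [norm_div, Complex.norm_natCast, div_pow, div_le_div_iff₀ (by positivity) (by positivity)]
      have h2 := pow_le_pow_left₀ (norm_nonneg _) (co_norm_le η M n) 2
      have h3 := pow_le_pow_left₀ (by positivity) h 2
      have h4 : ‖co η M n‖ ^ 2 * M ^ 4 ≤ 2 ^ 2 * M ^ 4 :=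
        mul_le_mul_of_nonneg_right h2 (by positivity)
      nlinarith
  refine (Finset.sum_le_sum h1).trans ?_
  rw [Finset.sum_const, nsmul_eq_mul, Nat.card_Icc, Nat.add_sub_cancel]
  have h2 : ((⌊4 * M ^ 2⌋₊ : ℕ) : ℝ) ≤ 4 * M ^ 2 := Nat.floor_le (by positivity)
  refine (mul_le_mul_of_nonneg_right h2 (by positivity)).trans (le_of_eq ?_)
  field_simp
  norm_num

theorem st_V3 (hMV : ST_MV) : ST_V3 := by
  obtain ⟨C, hC0, hC⟩ := hMV
  refine ⟨768 * C, by positivity, fun η hη hη1 => ?_⟩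
  have e1 : ∀ᶠ M : ℝ in atTop, Real.log M ^ 3 ≤ M := by
    have h := (Real.isLittleO_pow_log_id_atTop (n := 3)).bound (by norm_num : (0 : ℝ) < 1)
    filter_upwards [h, eventually_ge_atTop (1 : ℝ)] with x hx hx1
    rw [one_mul, Real.norm_eq_abs, Real.norm_eq_abs, id, abs_of_nonneg (by linarith : (0 : ℝ) ≤ x)] at hx
    exact (le_abs_self _).trans hx
  obtain ⟨M₁, hM₁⟩ := eventually_atTop.1 e1
  refine ⟨max M₁ (Real.exp 1), fun M hM => ?_⟩
  have hMa : Real.log M ^ 3 ≤ M := hM₁ M ((le_max_left _ _).trans hM)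
  have hMe : Real.exp 1 ≤ M := (le_max_right _ _).trans hM
  have hM2 : 2 ≤ M := by
    have := Real.exp_one_gt_d9
    linarith
  have hM0 : 0 < M := by linarith
  have hL1 : 1 ≤ Real.log M := by
    rw [← Real.log_exp 1]
    exact Real.log_le_log (Real.exp_pos 1) hMe
  have hL0 : 0 < Real.log M := by linarith
  have hL3 : 1 ≤ Real.log M ^ 3 := one_le_pow₀ hL1
  have hT : 1 ≤ M * Real.log M ^ 3 := by nlinarith
  have h1 := tail_ms hC0 hC ⌊4 * M ^ 2⌋₊ (M * Real.log M ^ 3) hT (fun n => co η M n / n)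
  unfold DP
  refine h1.trans ?_
  have h2 := co_sum hη hη1 hM2
  have h3 : ((⌊4 * M ^ 2⌋₊ : ℕ) : ℝ) ≤ 4 * M ^ 2 := Nat.floor_le (by positivity)
  set L := Real.log M with hL
  have h4 : 4 / (M * L ^ 3) + 2 * ((⌊4 * M ^ 2⌋₊ : ℕ) : ℝ) / (M * L ^ 3) ^ 2 ≤ 12 / L ^ 6 := by
    have h5 : 4 / (M * L ^ 3) ≤ 4 / L ^ 6 := by
      rw [div_le_div_iff₀ (by positivity) (by positivity)]
      have : L ^ 6 = L ^ 3 * L ^ 3 := by ring
      rw [this]
      have h6 : L ^ 3 * L ^ 3 ≤ M * L ^ 3 := mul_le_mul_of_nonneg_right hMa (by positivity)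
      linarith
    have h6 : 2 * ((⌊4 * M ^ 2⌋₊ : ℕ) : ℝ) / (M * L ^ 3) ^ 2 ≤ 8 / L ^ 6 := by
      rw [div_le_div_iff₀ (by positivity) (by positivity)]
      have h7 : (M * L ^ 3) ^ 2 = M ^ 2 * L ^ 6 := by ring
      rw [h7]
      have h8 : 0 ≤ L ^ 6 := by positivity
      nlinarith
    have h7 : 12 / L ^ 6 = 4 / L ^ 6 + 8 / L ^ 6 := by ring
    linarith
  have hS0 : 0 ≤ ∑ n ∈ Icc 1 ⌊4 * M ^ 2⌋₊, ‖co η M n / n‖ ^ 2 :=
    Finset.sum_nonneg fun n _ => sq_nonneg _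
  calc C * (∑ n ∈ Icc 1 ⌊4 * M ^ 2⌋₊, ‖co η M n / n‖ ^ 2) *
        (4 / (M * L ^ 3) + 2 * ((⌊4 * M ^ 2⌋₊ : ℕ) : ℝ) / (M * L ^ 3) ^ 2)
      ≤ C * (∑ n ∈ Icc 1 ⌊4 * M ^ 2⌋₊, ‖co η M n / n‖ ^ 2) * (12 / L ^ 6) :=
        mul_le_mul_of_nonneg_left h4 (by positivity)
    _ ≤ C * (64 / M ^ 2) * (12 / L ^ 6) :=
        mul_le_mul_of_nonneg_right (mul_le_mul_of_nonneg_left h2 hC0.le) (by positivity)
    _ = 768 * C / (M ^ 2 * L ^ 6) := by
        field_simp
        norm_num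

end Pool.Agent.Helper51.AA
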