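import Pool.Agent.Helper99.AA.Stmts
import Pool.Agent.Helper71.CP.M2

set_option autoImplicit false

/-!
AA, rows VM and MI: consequences of the second theorem of Mertens.   [helper51]
-/

open Finset Filter Topology
open scoped BigOperators

namespace Pool.Agent.Helper51.AA

open Pool.Agent.Helper40.MR Pool.Agent.Helper99.AA

theorem pp_eq (n : ℕ) : Pool.Agent.Helper56.CP.PP n = (Icc 1 n).filter Nat.Prime := by
  ext p
  simp only [Pool.Agent.Helper56.CP.PP, mem_filter, mem_range, mem_Icc]
  constructor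
  · rintro ⟨h1, h2⟩
    exact ⟨⟨h2.one_le, by omega⟩, h2⟩
  · rintro ⟨⟨_, h1⟩, h2⟩
    exact ⟨by omega, h2⟩

theorem st_VM : ST_VM := by
  obtain ⟨M, hM⟩ := Pool.Agent.Helper56.CP.st_M2
  obtain ⟨B, hB⟩ := hM.bddBelow_range
  refine ⟨Real.exp (-B), Real.exp_pos _, fun y hy => ⟨?_, ?_⟩⟩
  · unfold Vy
    refine Finset.prod_nonneg fun p hp => ?_
    have h1 : (1 : ℝ) ≤ p := by
      exact_mod_cast (mem_filter.1 hp).2.one_le
    have h2 : 1 / (p : ℝ) ≤ 1 := by
      rw [div_le_one (by linarith)]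
      exact h1
    linarith
  · have h1 : B ≤ ∑ p ∈ Pool.Agent.Helper56.CP.PP y, 1 / (p : ℝ) - Real.log (Real.log y) :=
      hB ⟨y, rfl⟩
    rw [pp_eq] at h1
    have hy2 : (2 : ℝ) ≤ y := by exact_mod_cast hy
    have hl : 0 < Real.log y := Real.log_pos (by linarith)
    have h2 : Vy y ≤ Real.exp (-∑ p ∈ (Icc 1 y).filter Nat.Prime, 1 / (p : ℝ)) := by
      unfold Vy
      rw [← Finset.sum_neg_distrib, Real.exp_sum]
      refine Finset.prod_le_prod (fun p hp => ?_) (fun p hp => ?_)
      · have h1 : (1 : ℝ) ≤ p := by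
          exact_mod_cast (mem_filter.1 hp).2.one_le
        have h2 : 1 / (p : ℝ) ≤ 1 := by
          rw [div_le_one (by linarith)]
          exact h1
        linarith
      · have := Real.add_one_le_exp (-(1 / (p : ℝ)))
        linarith
    refine h2.trans ?_
    have h3 : Real.exp (-B) / Real.log y = Real.exp (-B - Real.log (Real.log y)) := by
      rw [Real.exp_sub, Real.exp_log hl]
    rw [h3]
    exact Real.exp_le_exp.2 (by linarith)

end Pool.Agent.Helper51.AA
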